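import Pool.Agent.Lib.MP_16285c_agZ.DEG4a.Spec

/-!
# Package DEG4a: a quotient which is algebraic along a curve (D4)
-/

set_option autoImplicit false

namespace Pool.Agent.Lib.MP_16285c_agZ

open Pool.Agent.Lib.MP_16285c_ag

namespace DerM

section Abs

variable {K A : Type} [Field K] [CommRing A] [Algebra K A]

private theorem term (δ : Derivation K A A) (N D : A) (k j : ℕ) :
    D * δ (N ^ k * D ^ j) = (k : A) * (N ^ (k - 1) * D ^ j) * (D * δ N - N * δ D) +
      ((k + j : ℕ) : A) * δ D * (N ^ k * D ^ j) := by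
  rw [Derivation.leibniz, Derivation.leibniz_pow, Derivation.leibniz_pow]
  rcases k with _ | k
  · rcases j with _ | j
    · simp
    · simp only [smul_eq_mul, nsmul_eq_mul, Nat.cast_add, Nat.cast_one, Nat.add_sub_cancel,
        Nat.cast_zero, pow_zero]
      ring
  · rcases j with _ | j
    · simp only [smul_eq_mul, nsmul_eq_mul, Nat.cast_add, Nat.cast_one, Nat.add_sub_cancel,
        Nat.cast_zero, pow_zero]
      ring
    · simp only [smul_eq_mul, nsmul_eq_mul, Nat.cast_add, Nat.cast_one, Nat.add_sub_cancel]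
      ring

/-- The homogenized polynomial. -/
private noncomputable def MM (m : Polynomial K) (N D : A) : A :=
  ∑ k ∈ Finset.range (m.natDegree + 1), m.coeff k • (N ^ k * D ^ (m.natDegree - k))

/-- The homogenized derivative. -/
private noncomputable def M' (m : Polynomial K) (N D : A) : A :=
  ∑ k ∈ Finset.range (m.natDegree + 1),
    m.coeff k • ((k : A) * (N ^ (k - 1) * D ^ (m.natDegree - k)))

private theorem ident (δ : Derivation K A A) (m : Polynomial K) (N D : A) :
    D * δ (MM m N D) = M' m N D * (D * δ N - N * δ D) + (m.natDegree : A) * δ D * MM m N D := by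
  rw [MM, M', map_sum, Finset.mul_sum, Finset.sum_mul, Finset.mul_sum, ← Finset.sum_add_distrib]
  refine Finset.sum_congr rfl fun k hk => ?_
  have hk' : k ≤ m.natDegree := Nat.lt_succ_iff.1 (Finset.mem_range.1 hk)
  have h1 := term δ N D k (m.natDegree - k)
  rw [Nat.add_sub_cancel' hk'] at h1
  rw [Derivation.map_smul, mul_smul_comm, h1, smul_add, smul_mul_assoc, mul_smul_comm]

variable {L : Type} [Field L] [Algebra K L]

private theorem MM_eval (φ : A →ₐ[K] L) (m : Polynomial K) (N D : A) (a : L)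
    (h : φ N = a * φ D) : φ (MM m N D) = φ D ^ m.natDegree * Polynomial.aeval a m := by
  rw [MM, map_sum, Polynomial.aeval_eq_sum_range, Finset.mul_sum]
  refine Finset.sum_congr rfl fun k hk => ?_
  have hk' : k ≤ m.natDegree := Nat.lt_succ_iff.1 (Finset.mem_range.1 hk)
  rw [map_smul, map_mul, map_pow, map_pow, h, mul_pow, mul_smul_comm, mul_assoc, ← pow_add,
    Nat.add_sub_cancel' hk', mul_comm (a ^ k)]

private theorem M'_eval (φ : A →ₐ[K] L) (m : Polynomial K) (N D : A) (a : L)
    (h : φ N = a * φ D) :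
    φ (M' m N D) = φ D ^ (m.natDegree - 1) * Polynomial.aeval a (Polynomial.derivative m) := by
  rw [M', map_sum]
  have h1 : Polynomial.aeval a (Polynomial.derivative m) =
      ∑ k ∈ Finset.range (m.natDegree + 1), m.coeff k • ((k : L) * a ^ (k - 1)) := by
    rw [Polynomial.derivative_apply, Polynomial.sum_over_range _ (by simp), map_sum]
    refine Finset.sum_congr rfl fun k _ => ?_
    rw [map_mul, map_pow, Polynomial.aeval_X, Polynomial.aeval_C, map_mul, map_natCast,
      Algebra.smul_def, mul_assoc]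
  rw [h1, Finset.mul_sum]
  refine Finset.sum_congr rfl fun k hk => ?_
  have hk' : k ≤ m.natDegree := Nat.lt_succ_iff.1 (Finset.mem_range.1 hk)
  rw [map_smul, mul_smul_comm]
  congr 1
  rcases k with _ | k
  · simp
  · rw [map_mul, map_natCast, map_mul, map_pow, map_pow, h, mul_pow, Nat.add_sub_cancel,
      mul_assoc (a ^ k), ← pow_add]
    have h2 : k + (m.natDegree - (k + 1)) = m.natDegree - 1 := by omega
    rw [h2]
    ring

end Abs

end DerM

open DerM in
theorem stmtDer : StmtDer := by
  intro K _ _ Q N D hQ hD L _ _ _ _ _ halg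
  let φ : Pl K →ₐ[K] L := (IsScalarTower.toAlgHom K (CR Q) L).comp (Ideal.Quotient.mkₐ K _)
  have hφ : ∀ G : Pl K, φ G = algebraMap (CR Q) L (Ideal.Quotient.mk _ G) := fun G => rfl
  have hker : ∀ G : Pl K, φ G = 0 ↔ Q ∣ G := by
    intro G
    rw [hφ, map_eq_zero_iff _ (IsFractionRing.injective (CR Q) L), Ideal.Quotient.eq_zero_iff_mem,
      Ideal.mem_span_singleton]
  have hprime : Prime Q := hQ.prime
  rw [← hφ, ← hφ] at halg
  set a : L := φ N / φ D with ha
  have hD0 : φ D ≠ 0 := fun h => hD ((hker D).1 h)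
  have hN : φ N = a * φ D := by
    rw [ha, div_mul_cancel₀ _ hD0]
  have hint : IsIntegral K a := halg.isIntegral
  have hirr : Irreducible (minpoly K a) := minpoly.irreducible hint
  have hroot : Polynomial.aeval a (minpoly K a) = 0 := minpoly.aeval K a
  have hder : Polynomial.aeval a (Polynomial.derivative (minpoly K a)) ≠ 0 :=
    hirr.separable.aeval_derivative_ne_zero hroot
  have hM : Q ∣ MM (minpoly K a) N D := by
    rw [← hker, MM_eval φ _ N D a hN, hroot, mul_zero]
  have hM' : ¬ Q ∣ M' (minpoly K a) N D := by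
    rw [← hker, M'_eval φ _ N D a hN]
    exact mul_ne_zero (pow_ne_zero _ hD0) hder
  let δ : Derivation K (Pl K) (Pl K) :=
    MvPolynomial.pderiv 1 Q • MvPolynomial.pderiv 0 - MvPolynomial.pderiv 0 Q • MvPolynomial.pderiv 1
  have hδ : ∀ G : Pl K, δ G = MvPolynomial.pderiv 1 Q * MvPolynomial.pderiv 0 G -
      MvPolynomial.pderiv 0 Q * MvPolynomial.pderiv 1 G := fun G => rfl
  have hδQ : δ Q = 0 := by
    rw [hδ]
    ring
  have hδM : Q ∣ δ (MM (minpoly K a) N D) := by
    obtain ⟨H, hH⟩ := hM
    rw [hH, Derivation.leibniz, hδQ, smul_zero, add_zero]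
    exact ⟨δ H, rfl⟩
  have h1 := ident δ (minpoly K a) N D
  have h2 : Q ∣ M' (minpoly K a) N D * (D * δ N - N * δ D) := by
    have h3 : M' (minpoly K a) N D * (D * δ N - N * δ D) = D * δ (MM (minpoly K a) N D) -
        ((minpoly K a).natDegree : Pl K) * δ D * MM (minpoly K a) N D := by
      rw [h1]
      ring
    rw [h3]
    exact dvd_sub (Dvd.dvd.mul_left hδM _) (Dvd.dvd.mul_left hM _)
  have h4 : Q ∣ D * δ N - N * δ D := (hprime.dvd_or_dvd h2).resolve_left hM'
  have h5 : D * δ N - N * δ D = MvPolynomial.pderiv 1 Q * (MvPolynomial.pderiv 0 N * D -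
      N * MvPolynomial.pderiv 0 D) - MvPolynomial.pderiv 0 Q * (MvPolynomial.pderiv 1 N * D -
      N * MvPolynomial.pderiv 1 D) := by
    rw [hδ, hδ]
    ring
  rwa [h5] at h4

end Pool.Agent.Lib.MP_16285c_agZ
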