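import Pool.Agent.Lib.MP_16285c_agZ.DEG4a.Spec

/-!
# Package DEG4a: a contracted curve divides the Jacobian
-/

set_option autoImplicit false

namespace Pool.Agent.Lib.MP_16285c_agZ

open Pool.Agent.Lib.MP_16285c_ag

namespace JacQM

open MvPolynomial

/-- in characteristic zero a nonconstant polynomial has a nonzero derivative, of smaller degree -/
theorem exists_pderiv_lt {L : Type} [Field L] [CharZero L] {ι : Type} (P : MvPolynomial ι L)
    (hP : P.totalDegree ≠ 0) :
    ∃ i, pderiv i P ≠ 0 ∧ (pderiv i P).totalDegree < P.totalDegree := by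
  classical
  have hlt : ∀ i, pderiv i P ≠ 0 → (pderiv i P).totalDegree < P.totalDegree := by
    intro i hi
    rw [totalDegree, Finset.sup_lt_iff (Nat.pos_of_ne_zero hP)]
    intro e he
    rw [mem_support_iff, coeff_pderiv] at he
    have h1 : e + Finsupp.single i 1 ∈ P.support := by
      rw [mem_support_iff]
      exact left_ne_zero_of_mul he
    have h2 := le_totalDegree h1
    rw [Finsupp.sum_add_index' (by simp) (by simp), Finsupp.sum_single_index rfl] at h2
    exact h2
  by_contra hcon
  push Not at hcon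
  have h0 : ∀ i, pderiv i P = 0 := fun i => by
    by_contra hi
    exact absurd (hlt i hi) (not_lt.2 (hcon i hi))
  apply hP
  rw [totalDegree_eq_zero_iff]
  intro m hm i
  by_contra hmi
  have h1 := coeff_pderiv (i := i) P (m - Finsupp.single i 1)
  have h2 : m - Finsupp.single i 1 + Finsupp.single i 1 = m := by
    ext j
    by_cases hj : j = i
    · subst hj
      simp
      omega
    · simp [Ne.symm hj]
  rw [h0 i, coeff_zero, h2] at h1
  rw [mem_support_iff] at hm
  rcases mul_eq_zero.1 h1.symm with h | h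
  · exact hm h
  · norm_cast at h

/-- an irreducible polynomial does not divide all its derivatives -/
theorem exists_not_dvd {K : Type} [Field K] [CharZero K] (Q : Pl K) (hQ : Irreducible Q) :
    ∃ i, ¬ Q ∣ pderiv i Q := by
  have hd : Q.totalDegree ≠ 0 := by
    intro h0
    rw [totalDegree_eq_zero_iff_eq_C] at h0
    by_cases hc : coeff 0 Q = 0
    · rw [hc, C_0] at h0
      exact hQ.ne_zero h0
    · apply hQ.not_isUnit
      rw [h0]
      exact (IsUnit.mk0 _ hc).map C
  obtain ⟨i, hi, hlt⟩ := exists_pderiv_lt Q hd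
  refine ⟨i, fun hdvd => ?_⟩
  obtain ⟨G, hG⟩ := hdvd
  have hG0 : G ≠ 0 := by
    rintro rfl
    rw [mul_zero] at hG
    exact hi hG
  have h1 := totalDegree_mul_of_isDomain hQ.ne_zero hG0
  rw [← hG] at h1
  omega

end JacQM

open JacQM in
theorem stmtJacQ : StmtZd → StmtDer → StmtJacQ := by
  intro hZd hDer K _ _ f ρ hf Q P h hQ hden hPh hDP hDh
  have hprime : Prime Q := hQ.prime
  have hpi : (Ideal.span {Q} : Ideal (MvPolynomial (Fin 2) K)).IsPrime :=
    (Ideal.span_singleton_prime hQ.ne_zero).2 hprime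
  have : IsDomain (CR Q) := Ideal.Quotient.isDomain _
  -- the residue map
  let L := FractionRing (CR Q)
  let φ : Pl K →+* L := (algebraMap (CR Q) L).comp (Ideal.Quotient.mk _)
  have hφ0 : ∀ G : Pl K, φ G = 0 ↔ Q ∣ G := by
    intro G
    have h1 : φ G = algebraMap (CR Q) L (Ideal.Quotient.mk _ G) := rfl
    rw [h1, IsFractionRing.to_map_eq_zero_iff, Ideal.Quotient.eq_zero_iff_mem,
      Ideal.mem_span_singleton]
  have hφC : ∀ c : K, φ (MvPolynomial.C c) = algebraMap K L c := by
    intro c
    rw [IsScalarTower.algebraMap_apply K (CR Q) L]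
    rfl
  let a : Fin 2 → L := fun i => φ (f.num i) / φ (f.den i)
  have hden' : ∀ i, φ (f.den i) ≠ 0 := fun i h0 => hden i ((hφ0 _).1 h0)
  have frm : ∀ A B : Pl K, (fr (A * B) : RF K) = fr A * fr B := fun A B => map_mul _ A B
  have fra : ∀ A B : Pl K, (fr (A + B) : RF K) = fr A + fr B := fun A B => map_add _ A B
  have fr1 : (fr (1 : Pl K) : RF K) = 1 := map_one _
  have key : ∀ H : Pl K, ∃ E N : Pl K, ¬ Q ∣ E ∧ fr N = fr E * ρ (fr H) ∧
      φ N = φ E * MvPolynomial.aeval a H := by
    intro H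
    induction H using MvPolynomial.induction_on with
    | C c =>
      refine ⟨1, MvPolynomial.C c, hprime.not_dvd_one, ?_, ?_⟩
      · have h1 : (fr (MvPolynomial.C c) : RF K) = algebraMap K (RF K) c := by
          rw [IsScalarTower.algebraMap_apply K (MvPolynomial (Fin 2) K) (RF K)]
          rfl
        rw [h1, AlgHom.commutes, fr1, one_mul]
      · rw [hφC, map_one, one_mul, MvPolynomial.aeval_C]
    | add p q hp hq =>
      obtain ⟨E1, N1, hE1, h1, h1'⟩ := hp
      obtain ⟨E2, N2, hE2, h2, h2'⟩ := hq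
      refine ⟨E1 * E2, N1 * E2 + N2 * E1, fun hd => ?_, ?_, ?_⟩
      · rcases hprime.dvd_or_dvd hd with h3 | h3
        · exact hE1 h3
        · exact hE2 h3
      · rw [fra, fra, frm, frm, frm, h1, h2, map_add]
        ring
      · rw [map_add, map_mul, map_mul, map_mul, map_add, h1', h2']
        ring
    | mul_X p i hp =>
      obtain ⟨E1, N1, hE1, h1, h1'⟩ := hp
      refine ⟨E1 * f.den i, N1 * f.num i, fun hd => ?_, ?_, ?_⟩
      · rcases hprime.dvd_or_dvd hd with h3 | h3
        · exact hE1 h3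
        · exact hden i h3
      · have h2 := (hf i).2
        have h3 : gen K i = fr (MvPolynomial.X i) := rfl
        rw [h3] at h2
        rw [frm, frm, frm, h1, ← h2, map_mul]
        ring
      · have h4 : a i * φ (f.den i) = φ (f.num i) := div_mul_cancel₀ _ (hden' i)
        rw [map_mul, map_mul, map_mul, MvPolynomial.aeval_X, h1', ← h4]
        ring
  have hinj : Function.Injective (algebraMap (MvPolynomial (Fin 2) K) (RF K)) :=
    IsFractionRing.injective _ _
  have hvan : ∀ H : Pl K, Dv Q (ρ (fr H)) → MvPolynomial.aeval a H = 0 := by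
    intro H hH
    obtain ⟨E', N', hE', hN', hQN'⟩ := hH
    obtain ⟨E, N, hE, hN, hNφ⟩ := key H
    have h1 : N * E' = E * N' := by
      apply hinj
      rw [map_mul, map_mul]
      change fr N * fr E' = fr E * fr N'
      rw [hN, hN']
      ring
    have h2 := congrArg φ h1
    rw [map_mul, map_mul, (hφ0 N').2 hQN', mul_zero] at h2
    have hE1 : φ E ≠ 0 := fun h0 => hE ((hφ0 _).1 h0)
    have hE2 : φ E' ≠ 0 := fun h0 => hE' ((hφ0 _).1 h0)
    have h3 : φ N = 0 := (mul_eq_zero.1 h2).resolve_right hE2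
    rw [h3] at hNφ
    exact (mul_eq_zero.1 hNφ.symm).resolve_left hE1
  have halg := hZd K P h hPh L a (hvan P hDP) (hvan h hDh)
  have hder : ∀ i, Q ∣ MvPolynomial.pderiv 1 Q * wj f i 0 - MvPolynomial.pderiv 0 Q * wj f i 1 :=
    fun i => hDer K Q (f.num i) (f.den i) hQ (hden i) L (halg i)
  have hd0 := hder 0
  have hd1 := hder 1
  by_contra hj
  have e1 : Q ∣ MvPolynomial.pderiv 1 Q * jac f := by
    have h1 : MvPolynomial.pderiv 1 Q * jac f =
        (MvPolynomial.pderiv 1 Q * wj f 0 0 - MvPolynomial.pderiv 0 Q * wj f 0 1) * wj f 1 1 -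
        (MvPolynomial.pderiv 1 Q * wj f 1 0 - MvPolynomial.pderiv 0 Q * wj f 1 1) * wj f 0 1 := by
      unfold jac
      ring
    rw [h1]
    exact dvd_sub (hd0.mul_right _) (hd1.mul_right _)
  have e0 : Q ∣ MvPolynomial.pderiv 0 Q * jac f := by
    have h1 : MvPolynomial.pderiv 0 Q * jac f =
        (MvPolynomial.pderiv 1 Q * wj f 0 0 - MvPolynomial.pderiv 0 Q * wj f 0 1) * wj f 1 0 -
        (MvPolynomial.pderiv 1 Q * wj f 1 0 - MvPolynomial.pderiv 0 Q * wj f 1 1) * wj f 0 0 := by
      unfold jac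
      ring
    rw [h1]
    exact dvd_sub (hd0.mul_right _) (hd1.mul_right _)
  obtain ⟨i, hi⟩ := exists_not_dvd Q hQ
  fin_cases i
  · exact hi ((hprime.dvd_or_dvd e0).resolve_right hj)
  · exact hi ((hprime.dvd_or_dvd e1).resolve_right hj)

end Pool.Agent.Lib.MP_16285c_agZ
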