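import Pool.Agent.Lib.MP_16285c_agZ.DEG4a.Spec

/-! # Package DEG4a, module ResF: the map on the residue field -/

set_option autoImplicit false

namespace Pool.Agent.Lib.MP_16285c_agZ

open Pool.Agent.Lib.MP_16285c_ag

namespace ResFM

variable {K : Type} [Field K] (P : Pl K) (L : Type) [Field L] [Algebra (CR P) L]

/-- The residue of a polynomial. -/
noncomputable def cl : Pl K →+* L := (algebraMap (CR P) L).comp (Ideal.Quotient.mk (Ideal.span {P}))

theorem cl_def (H : Pl K) : cl P L H = algebraMap (CR P) L (Ideal.Quotient.mk _ H) := rfl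

theorem rsd_iff (g : RF K) (u : L) :
    Rsd P L g u ↔ ∃ N E : Pl K, ¬ P ∣ E ∧ g * fr E = fr N ∧ u * cl P L E = cl P L N := Iff.rfl

theorem cl_eq_zero [IsFractionRing (CR P) L] (H : Pl K) : cl P L H = 0 ↔ P ∣ H := by
  rw [cl_def, ← Ideal.mem_span_singleton, ← Ideal.Quotient.eq_zero_iff_mem]
  constructor
  · intro h
    exact IsFractionRing.injective (CR P) L (by rw [h, map_zero])
  · intro h
    rw [h, map_zero]

theorem fr_inj {G H : Pl K} (h : fr G = fr H) : G = H :=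
  IsFractionRing.injective (MvPolynomial (Fin 2) K) (FractionRing (MvPolynomial (Fin 2) K)) h

theorem uniq [IsFractionRing (CR P) L] {g : RF K} {u u' : L} (h : Rsd P L g u)
    (h' : Rsd P L g u') : u = u' := by
  obtain ⟨N, E, hE, h1, h2⟩ := (rsd_iff P L g u).1 h
  obtain ⟨N', E', hE', h1', h2'⟩ := (rsd_iff P L g u').1 h'
  have e : N * E' = N' * E := by
    apply fr_inj
    simp only [fr, map_mul] at *
    rw [← h1, ← h1']
    ring
  have e' := congrArg (cl P L) e
  rw [map_mul, map_mul, ← h2, ← h2'] at e'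
  have hE0 : cl P L E ≠ 0 := fun h0 => hE ((cl_eq_zero P L E).1 h0)
  have hE0' : cl P L E' ≠ 0 := fun h0 => hE' ((cl_eq_zero P L E').1 h0)
  have e2 : (u - u') * (cl P L E * cl P L E') = 0 := by
    linear_combination e'
  rcases mul_eq_zero.1 e2 with h0 | h0
  · exact sub_eq_zero.1 h0
  · exact absurd h0 (mul_ne_zero hE0 hE0')

theorem add (hP : Irreducible P) {g g' : RF K} {u u' : L} (h : Rsd P L g u)
    (h' : Rsd P L g' u') : Rsd P L (g + g') (u + u') := by
  obtain ⟨N, E, hE, h1, h2⟩ := (rsd_iff P L g u).1 h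
  obtain ⟨N', E', hE', h1', h2'⟩ := (rsd_iff P L g' u').1 h'
  refine (rsd_iff P L _ _).2 ⟨N * E' + N' * E, E * E', ?_, ?_, ?_⟩
  · intro hd
    rcases hP.prime.dvd_or_dvd hd with hd | hd
    · exact hE hd
    · exact hE' hd
  · simp only [fr, map_mul, map_add] at *
    rw [← h1, ← h1']
    ring
  · rw [map_mul, map_add, map_mul, map_mul, ← h2, ← h2']
    ring

theorem mul (hP : Irreducible P) {g g' : RF K} {u u' : L} (h : Rsd P L g u)
    (h' : Rsd P L g' u') : Rsd P L (g * g') (u * u') := by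
  obtain ⟨N, E, hE, h1, h2⟩ := (rsd_iff P L g u).1 h
  obtain ⟨N', E', hE', h1', h2'⟩ := (rsd_iff P L g' u').1 h'
  refine (rsd_iff P L _ _).2 ⟨N * N', E * E', ?_, ?_, ?_⟩
  · intro hd
    rcases hP.prime.dvd_or_dvd hd with hd | hd
    · exact hE hd
    · exact hE' hd
  · simp only [fr, map_mul] at *
    rw [← h1, ← h1']
    ring
  · rw [map_mul, map_mul, ← h2, ← h2']
    ring

theorem con (hP : Irreducible P) [Algebra K L] [IsScalarTower K (CR P) L] (a : K) :
    Rsd P L (algebraMap K (RF K) a) (algebraMap K L a) := by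
  refine (rsd_iff P L _ _).2 ⟨MvPolynomial.C a, 1, ?_, ?_, ?_⟩
  · intro hd
    exact hP.not_isUnit (isUnit_of_dvd_one hd)
  · rw [IsScalarTower.algebraMap_apply K (MvPolynomial (Fin 2) K) (RF K)]
    simp [fr, MvPolynomial.algebraMap_eq]
  · rw [map_one, mul_one, IsScalarTower.algebraMap_apply K (CR P) L, cl_def]
    rfl

theorem sur [IsFractionRing (CR P) L] (u : L) : ∃ g : RF K, Rsd P L g u := by
  obtain ⟨n, d, hd, he⟩ := IsFractionRing.div_surjective (A := CR P) u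
  obtain ⟨N, rfl⟩ := Ideal.Quotient.mk_surjective n
  obtain ⟨E, rfl⟩ := Ideal.Quotient.mk_surjective d
  have hE0 : cl P L E ≠ 0 := by
    rw [cl_def]
    haveI : Nontrivial (CR P) := (algebraMap (CR P) L).domain_nontrivial
    exact IsFractionRing.to_map_ne_zero_of_mem_nonZeroDivisors hd
  have hE : ¬ P ∣ E := fun h => hE0 ((cl_eq_zero P L E).2 h)
  have hE1 : (fr E : RF K) ≠ 0 := by
    intro h0
    have : E = 0 := fr_inj (by rw [h0]; simp [fr])
    exact hE (this ▸ dvd_zero P)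
  refine ⟨fr N / fr E, (rsd_iff P L _ _).2 ⟨N, E, hE, ?_, ?_⟩⟩
  · rw [div_mul_cancel₀ _ hE1]
  · rw [← he, ← cl_def, ← cl_def, div_mul_cancel₀ _ hE0]

theorem img [IsFractionRing (CR P) L] (hP : Irreducible P) (ρ : RF K →ₐ[K] RF K)
    (hρ : Pres ρ P) {g : RF K} {u : L} (h : Rsd P L g u) :
    ∃ v : L, Rsd P L (ρ g) v ∧ (u = 0 → v = 0) := by
  obtain ⟨N, E, hE, h1, h2⟩ := (rsd_iff P L g u).1 h
  obtain ⟨E₁, N₁, hE₁, e₁, d₁⟩ := hρ E
  obtain ⟨E₂, N₂, hE₂, e₂, d₂⟩ := hρ N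
  have hN₁ : ¬ P ∣ N₁ := fun hd => hE (d₁.2 hd)
  have hD : ¬ P ∣ E₂ * N₁ := by
    intro hd
    rcases hP.prime.dvd_or_dvd hd with hd | hd
    · exact hE₂ hd
    · exact hN₁ hd
  have hD0 : cl P L (E₂ * N₁) ≠ 0 := fun h0 => hD ((cl_eq_zero P L _).1 h0)
  refine ⟨cl P L (N₂ * E₁) / cl P L (E₂ * N₁), (rsd_iff P L _ _).2 ⟨N₂ * E₁, E₂ * N₁, hD, ?_, ?_⟩, ?_⟩
  · have h3 : ρ g * ρ (fr E) = ρ (fr N) := by
      rw [← map_mul, h1]
    simp only [fr, map_mul] at *
    rw [e₁, e₂, ← h3]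
    ring
  · rw [div_mul_cancel₀ _ hD0]
  · intro hu
    rw [hu, zero_mul] at h2
    have hPN : P ∣ N := (cl_eq_zero P L N).1 h2.symm
    have : cl P L (N₂ * E₁) = 0 := (cl_eq_zero P L _).2 ((d₂.1 hPN).mul_right E₁)
    rw [this, zero_div]

theorem ex [IsFractionRing (CR P) L] [Algebra K L] [IsScalarTower K (CR P) L]
    (hP : Irreducible P) (ρ : RF K →ₐ[K] RF K)
    (hρ : Pres ρ P) (u : L) : ∃ v : L, ∀ g : RF K, Rsd P L g u → Rsd P L (ρ g) v := by
  obtain ⟨g₀, hg₀⟩ := sur P L u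
  obtain ⟨v, hv, -⟩ := img P L hP ρ hρ hg₀
  refine ⟨v, fun g hg => ?_⟩
  have hm : Rsd P L (-1 * g₀) (-1 * u) := by
    have h1 := con P L hP (-1 : K)
    rw [map_neg, map_neg, map_one, map_one] at h1
    exact mul P L hP h1 hg₀
  have h2 := add P L hP hg hm
  have h3 : u + -1 * u = 0 := by ring
  rw [h3] at h2
  obtain ⟨w, hw, hw0⟩ := img P L hP ρ hρ h2
  rw [hw0 rfl] at hw
  have h4 := add P L hP hv hw
  rw [add_zero, ← map_add] at h4
  have h5 : g₀ + (g + -1 * g₀) = g := by ring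
  rw [h5] at h4
  exact h4

end ResFM

open ResFM in
theorem stmtResF : StmtResF := by
  intro K _ ρ P hP hρ L _ _ _ _ _
  choose F hF using ex P L hP ρ hρ
  have hadd : ∀ u v : L, F (u + v) = F u + F v := by
    intro u v
    obtain ⟨g, hg⟩ := sur P L u
    obtain ⟨g', hg'⟩ := sur P L v
    have h1 := hF _ _ (add P L hP hg hg')
    rw [map_add] at h1
    exact uniq P L h1 (add P L hP (hF _ _ hg) (hF _ _ hg'))
  have hmul : ∀ u v : L, F (u * v) = F u * F v := by
    intro u v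
    obtain ⟨g, hg⟩ := sur P L u
    obtain ⟨g', hg'⟩ := sur P L v
    have h1 := hF _ _ (mul P L hP hg hg')
    rw [map_mul] at h1
    exact uniq P L h1 (mul P L hP (hF _ _ hg) (hF _ _ hg'))
  have hcon : ∀ a : K, F (algebraMap K L a) = algebraMap K L a := by
    intro a
    have h1 := hF _ _ (con P L hP a)
    rw [ρ.commutes] at h1
    exact uniq P L h1 (con P L hP a)
  have h0 : F 0 = 0 := by
    have := hcon 0
    rwa [map_zero] at this
  have h1 : F 1 = 1 := by
    have := hcon 1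
    rwa [map_one] at this
  refine ⟨{ toFun := F, map_one' := h1, map_mul' := hmul, map_zero' := h0, map_add' := hadd,
            commutes' := hcon }, ?_⟩
  intro g u hg
  exact hF u g hg

end Pool.Agent.Lib.MP_16285c_agZ
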