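import Pool.Agent.Lib.MP_16285c_agZ.DEG4a.Spec

/-! Module Zd: zero-dimensional ideals in `K[x,y]`. -/

set_option autoImplicit false

namespace Pool.Agent.Lib.MP_16285c_agZ

open Pool.Agent.Lib.MP_16285c_ag

namespace ZdM

theorem dim2 (K : Type) [Field K] : ringKrullDim (MvPolynomial (Fin 2) K) = 2 := by
  rw [MvPolynomial.ringKrullDim_of_isNoetherianRing, ringKrullDim_eq_zero_of_field, zero_add]
  simp

theorem chain {K : Type} [Field K] (p₀ p₁ p₂ p₃ : PrimeSpectrum (MvPolynomial (Fin 2) K))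
    (h₀ : p₀ < p₁) (h₁ : p₁ < p₂) (h₂ : p₂ < p₃) : False := by
  let s : LTSeries (PrimeSpectrum (MvPolynomial (Fin 2) K)) :=
    LTSeries.mk 3 ![p₀, p₁, p₂, p₃] (by
      rw [Fin.strictMono_iff_lt_succ]
      intro i
      fin_cases i
      · exact h₀
      · exact h₁
      · exact h₂)
  have h := Order.LTSeries.length_le_krullDim s
  have h2 : Order.krullDim (PrimeSpectrum (MvPolynomial (Fin 2) K)) = 2 := dim2 K
  rw [h2] at h
  have h3 : ((3 : ℕ) : WithBot ℕ∞) ≤ ((2 : ℕ) : WithBot ℕ∞) := h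
  have h4 : (3 : ℕ) ≤ 2 := by exact_mod_cast h3
  omega

theorem max_of {K : Type} [Field K] (p : Ideal (MvPolynomial (Fin 2) K)) (hp : p.IsPrime)
    (Q : MvPolynomial (Fin 2) K) (hQ : Prime Q) (hlt : Ideal.span {Q} < p) : p.IsMaximal := by
  obtain ⟨m, hm, hpm⟩ := Ideal.exists_le_maximal p hp.ne_top
  rcases eq_or_lt_of_le hpm with h | h
  · rw [h]
    exact hm
  · exfalso
    have hQ' : (Ideal.span {Q}).IsPrime := (Ideal.span_singleton_prime hQ.ne_zero).2 hQ
    refine chain ⟨⊥, Ideal.isPrime_bot⟩ ⟨Ideal.span {Q}, hQ'⟩ ⟨p, hp⟩ ⟨m, hm.isPrime⟩ ?_ hlt h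
    change (⊥ : Ideal (MvPolynomial (Fin 2) K)) < Ideal.span {Q}
    rw [bot_lt_iff_ne_bot]
    intro h0
    rw [Ideal.span_singleton_eq_bot] at h0
    exact hQ.ne_zero h0

theorem alg_of_max {K : Type} [Field K] (L : Type) [Field L] [Algebra K L] (a : Fin 2 → L)
    (hm : (RingHom.ker (MvPolynomial.aeval a : MvPolynomial (Fin 2) K →ₐ[K] L)).IsMaximal)
    (i : Fin 2) : IsAlgebraic K (a i) := by
  let p := RingHom.ker (MvPolynomial.aeval a : MvPolynomial (Fin 2) K →ₐ[K] L)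
  let _ : Field (MvPolynomial (Fin 2) K ⧸ p) := Ideal.Quotient.field p
  have hfin : Module.Finite K (MvPolynomial (Fin 2) K ⧸ p) :=
    finite_of_finite_type_of_isJacobsonRing K (MvPolynomial (Fin 2) K ⧸ p)
  have hint : IsIntegral K (Ideal.Quotient.mkₐ K p (MvPolynomial.X i)) :=
    Algebra.IsIntegral.isIntegral _
  let φ : (MvPolynomial (Fin 2) K ⧸ p) →ₐ[K] L :=
    Ideal.Quotient.liftₐ p (MvPolynomial.aeval a) (fun x hx => hx)
  have h := hint.map φ
  have h2 : φ (Ideal.Quotient.mkₐ K p (MvPolynomial.X i)) = a i := by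
    change MvPolynomial.aeval a (MvPolynomial.X i) = a i
    rw [MvPolynomial.aeval_X]
  rw [h2] at h
  exact h.isAlgebraic

end ZdM

theorem stmtZd : StmtZd := by
  intro K _ P h hrel L _ _ a hP hh i
  apply ZdM.alg_of_max L a
  have hprime : (RingHom.ker (MvPolynomial.aeval a : MvPolynomial (Fin 2) K →ₐ[K] L)).IsPrime :=
    RingHom.ker_isPrime _
  have hPm : P ∈ RingHom.ker (MvPolynomial.aeval a : MvPolynomial (Fin 2) K →ₐ[K] L) := hP
  have hhm : h ∈ RingHom.ker (MvPolynomial.aeval a : MvPolynomial (Fin 2) K →ₐ[K] L) := hh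
  have hP0 : P ≠ 0 := by
    rintro rfl
    have hu : IsUnit h := hrel (dvd_zero h) dvd_rfl
    exact hprime.ne_top (Ideal.eq_top_of_isUnit_mem _ hhm hu)
  obtain ⟨f, hf, hfP⟩ := UniqueFactorizationMonoid.exists_prime_factors P hP0
  have h1 : f.prod ∈ RingHom.ker (MvPolynomial.aeval a : MvPolynomial (Fin 2) K →ₐ[K] L) := by
    obtain ⟨u, hu⟩ := hfP.symm
    rw [← hu]
    exact Ideal.mul_mem_right _ _ hPm
  obtain ⟨Q, hQf, hQm⟩ := (hprime.multiset_prod_mem_iff_exists_mem f).1 h1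
  have hQ := hf Q hQf
  have hQP : Q ∣ P := (Multiset.dvd_prod hQf).trans hfP.dvd
  apply ZdM.max_of _ hprime Q hQ
  refine lt_of_le_of_ne ((Ideal.span_singleton_le_iff_mem _).2 hQm) ?_
  intro he
  rw [← he, Ideal.mem_span_singleton] at hhm
  exact hQ.not_unit (hrel hQP hhm)

end Pool.Agent.Lib.MP_16285c_agZ
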