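import Pool.Agent.Lib.MP_16285c_agZ.DEG4a.DegP
import Pool.Agent.Lib.MP_16285c_agZ.DEG4a.ResF
import Pool.Agent.Lib.MP_16285c_agZ.DEG4a.Deg
import Pool.Agent.Lib.MP_16285c_agZ.DEG4a.Zd
import Pool.Agent.Lib.MP_16285c_agZ.DEG4a.Der
import Pool.Agent.Lib.MP_16285c_agZ.DEG4a.JacQ
import Pool.Agent.Lib.MP_16285c_agZ.DEG4a.Tot

/-!
# `StmtDegP`, assembled
-/

set_option autoImplicit false

namespace Pool.Agent.Lib.MP_16285c_agZ

theorem degP_all : StmtDegP :=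
  stmtDegP stmtResF stmtDeg (stmtTot stmtDeg (stmtJacQ stmtZd stmtDer))

end Pool.Agent.Lib.MP_16285c_agZ
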