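import Pool.Agent.Lib.MP_16285c_agZ.Spec

/-!
# Package DEG4a: the topological degree on a totally invariant curve

`A = K[x,y]`, `E = K(x,y)`. For an irreducible `Q`, `A_(Q)` is the local ring of the curve `Q = 0`, `L` its residue field. Every
statement has its proof in the docstring.
-/

set_option autoImplicit false

namespace Pool.Agent.Lib.MP_16285c_agZ

open Pool.Agent.Lib.MP_16285c_ag

/-- `g` is regular along the curve `Q = 0`. -/
def Rg {K : Type} [Field K] (Q : Pl K) (g : RF K) : Prop :=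
  ∃ E N : Pl K, ¬ Q ∣ E ∧ fr N = fr E * g

/-- `g` is regular along the curve `Q = 0` and vanishes there. -/
def Dv {K : Type} [Field K] (Q : Pl K) (g : RF K) : Prop :=
  ∃ E N : Pl K, ¬ Q ∣ E ∧ fr N = fr E * g ∧ Q ∣ N

/-- The polynomials in elements of `A` and of `ρ A`. -/
noncomputable def Ad {K : Type} [Field K] (ρ : RF K →ₐ[K] RF K) : Subalgebra K (RF K) :=
  Algebra.adjoin K (Set.range (fun H : Pl K => fr H) ∪ Set.range (fun H : Pl K => ρ (fr H)))

/-- (D1) PROOF. Existence: if `g * fr E = fr N`, `¬ P ∣ E`, take the data `E₁ N₁` of `Pres` for `E` and `E₂ N₂` for `N`: `¬ P ∣ N₁`, and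
`ρ g * fr (E₂ * N₁) = fr (N₂ * E₁)`; so `ρ g` has a residue, and it is `0` if `P ∣ N` (i.e. if `g` has residue `0`). Every `u : L` is the residue of some `g`; two
choices differ by an element of residue `0`. So `ρb u` = residue of `ρ g` is well defined; residues are unique, additive and
multiplicative. -/
def StmtResF : Prop :=
  ∀ (K : Type) [Field K] (ρ : RF K →ₐ[K] RF K) (P : Pl K), Irreducible P → Pres ρ P →
    ∀ (L : Type) [Field L] [Algebra (CR P) L] [IsFractionRing (CR P) L] [Algebra K L]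
      [IsScalarTower K (CR P) L],
      ∃ ρb : L →ₐ[K] L, ∀ (g : RF K) (u : L), Rsd P L g u → Rsd P L (ρ g) (ρb u)

/-- (D2) PROOF. Let `b_1, …, b_m ∈ L` be linearly independent over `ρb L`; multiplying them by a common denominator they are the residues
of polynomials `B_i`. Claim: the `B_i` are linearly independent over `ρ E`. Let `∑ ρ(c_i) B_i = 0`, not all `c_i` zero; clear
denominators and divide by a power of `P`: `c_i ∈ A`, not all divisible by `P`; residues: `∑ ρb(res c_i) b_i = 0`, a contradiction. So `m ≤ T`.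
If `m = T` the `B_i` are a basis of `E` over `ρ E`: `P = ∑ ρ(c_i) B_i`, `c_i = C_i / h` with `h, C_i ∈ A` not all divisible by `P`. Residues of
`ρ(h) P = ∑ ρ(C_i) B_i`: `0 = ∑ ρb(res C_i) b_i`, so all `C_i = P a_i` are divisible by `P`, so `¬ P ∣ h`, and `w = ∑ ρ(a_i) B_i`. -/
def StmtDeg : Prop :=
  ∀ (K : Type) [Field K] (ρ : RF K →ₐ[K] RF K) (P : Pl K), Irreducible P → 1 ≤ tp ρ →
    ∀ (L : Type) [Field L] [Algebra (CR P) L] [IsFractionRing (CR P) L] [Algebra K L]
      [IsScalarTower K (CR P) L] (ρb : L →ₐ[K] L),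
      (∀ (g : RF K) (u : L), Rsd P L g u → Rsd P L (ρ g) (ρb u)) →
      Module.Finite ρb.fieldRange L ∧ Module.finrank ρb.fieldRange L ≤ tp ρ ∧
      (Module.finrank ρb.fieldRange L = tp ρ →
        ∃ (h : Pl K) (w : RF K), ¬ P ∣ h ∧ w ∈ Ad ρ ∧ fr P * ρ (fr h) = ρ (fr P) * w)

/-- (D3) PROOF. `𝔭` = kernel of `aeval a : A → L`, a prime ideal containing `P` and `h`. If `P = 0` then `h` is a unit and `aeval a h ≠ 0`. Otherwise
some irreducible factor `P'` of `P` is in `𝔭`, and `(0) < (P') < 𝔭` (if `𝔭 = (P')` then `P' ∣ h`, `P' ∣ P`). The Krull dimension of `A` is two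
(`MvPolynomial.ringKrullDim_of_isNoetherianRing`), so `𝔭` is maximal, `A / 𝔭` is a field of finite type over `K`, so finite over `K`
(`finite_of_finite_type_of_isJacobsonRing`), and it contains the class of `X i`, mapped to `a i`. -/
def StmtZd : Prop :=
  ∀ (K : Type) [Field K] (P h : Pl K), IsRelPrime P h → ∀ (L : Type) [Field L] [Algebra K L]
    (a : Fin 2 → L), MvPolynomial.aeval a P = 0 → MvPolynomial.aeval a h = 0 →
    ∀ i, IsAlgebraic K (a i)

/-- (D4) PROOF. `N̄, D̄` the classes in `CR Q`, `a = N̄ / D̄ ∈ L` is a root of its minimal polynomial `m = ∑ m_k T ^ k` over `K`, of degree `e`, and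
`m'(a) ≠ 0` (characteristic zero). `M = ∑ m_k N ^ k D ^ (e - k)`, `M' = ∑ k m_k N ^ (k-1) D ^ (e - k)`: `Q ∣ M` (its class is `D̄ ^ e m(a)`) and
`¬ Q ∣ M'` (its class is `D̄ ^ (e-1) m'(a)`). The derivation `δ G = Q_y G_x - Q_x G_y` (`Q_x = pderiv 0 Q`, …) kills `Q`, so `Q ∣ δ M`; and
`D δM = M' (D δN - N δD) + e δD M`. So `Q ∣ D δN - N δD = Q_y (N_x D - N D_x) - Q_x (N_y D - N D_y)`. -/
def StmtDer : Prop :=
  ∀ (K : Type) [Field K] [CharZero K] (Q N D : Pl K), Irreducible Q → ¬ Q ∣ D →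
    ∀ (L : Type) [Field L] [Algebra (CR Q) L] [IsFractionRing (CR Q) L] [Algebra K L]
      [IsScalarTower K (CR Q) L],
      IsAlgebraic K (algebraMap (CR Q) L (Ideal.Quotient.mk _ N) /
        algebraMap (CR Q) L (Ideal.Quotient.mk _ D)) →
      Q ∣ MvPolynomial.pderiv 1 Q * (MvPolynomial.pderiv 0 N * D - N * MvPolynomial.pderiv 0 D) -
        MvPolynomial.pderiv 0 Q * (MvPolynomial.pderiv 1 N * D - N * MvPolynomial.pderiv 1 D)

/-- (D5) PROOF (uses `StmtZd`, `StmtDer`). `L = FractionRing (CR Q)`, `a i` = class of `num i` / class of `den i` in `L`. For every `H : Pl K` a power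
of `den 0 * den 1` times `ρ (fr H) = aeval (num i / den i) H` is a polynomial; so the residue of `ρ (fr H)` along `Q` is `aeval a H`
(`MvPolynomial.induction_on`; this may be written with `Rsd Q L`). So `aeval a P = aeval a h = 0` by the hypotheses, and by `StmtZd` the `a i` are
algebraic over `K`. `StmtDer`: with `w i j = wj f i j`, `Q ∣ Q_y w i 0 - Q_x w i 1` for `i = 0, 1`. Hence
`Q_y jac f = (Q_y w00) w11 - w01 (Q_y w10) ≡ Q_x w01 w11 - w01 Q_x w11 = 0` and likewise `Q ∣ Q_x jac f`. `Q` does not divide both `Q_x` and `Q_y`: they have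
smaller total degree, and if both are zero then `Q` is constant (characteristic zero). -/
def StmtJacQ : Prop :=
  ∀ (K : Type) [Field K] [CharZero K] (f : RM K 2) (ρ : RF K →ₐ[K] RF K), Of f ρ →
    ∀ Q P h : Pl K, Irreducible Q → (∀ i, ¬ Q ∣ f.den i) → IsRelPrime P h →
    Dv Q (ρ (fr P)) → Dv Q (ρ (fr h)) → Q ∣ jac f

/-- (D6) PROOF (uses `StmtDeg`, `StmtJacQ`). `StmtDeg` gives `h, w`. Let `ρ (fr P) / fr P = fr a / fr b` with `a, b` relatively prime (both nonzero as `ρ` is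
injective). Let `Q` be irreducible, `Q ∣ a` or `Q ∣ b`, and suppose that `Q` does not divide `f.den 0 * f.den 1`. Then `ρ A ⊆ A_(Q)`
(numbers `num i / den i`), and `w ∈ A_(Q)`. (a) `Q` is not associated to `P`: `v_P(ρ P) ≥ 1` by `Pres`; `1 + v_P(ρ h) = v_P(ρ P) + v_P(w)` and
`v_P(ρ h) = 0` (`Pres`, `¬ P ∣ h`), `v_P(w) ≥ 0`, so `v_P(ρ P) = 1` and `P` divides neither `a` nor `b`. (b) `b ρ(P) = a P`, `ρ(P) ∈ A_(Q)`, `¬ Q ∣ P`: `Q ∣ b`
would give `Q ∣ a`. So `Q ∣ a`, `ρ(P)` vanishes along `Q`, hence `P ρ(h) = ρ(P) w` and `ρ(h)` do. `P` and `h` are relatively prime. `StmtJacQ`. -/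
def StmtTot : Prop :=
  ∀ (K : Type) [Field K] [CharZero K] (f : RM K 2) (ρ : RF K →ₐ[K] RF K), Of f ρ → 1 ≤ tp ρ →
    ∀ P : Pl K, Irreducible P → Pres ρ P →
    ∀ (L : Type) [Field L] [Algebra (CR P) L] [IsFractionRing (CR P) L] [Algebra K L]
      [IsScalarTower K (CR P) L] (ρb : L →ₐ[K] L),
      (∀ (g : RF K) (u : L), Rsd P L g u → Rsd P L (ρ g) (ρb u)) →
      Module.finrank ρb.fieldRange L = tp ρ →
      ∃ a b : Pl K, a ≠ 0 ∧ b ≠ 0 ∧ fr b * ρ (fr P) = fr a * fr P ∧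
        ∀ Q : Pl K, Irreducible Q → (Q ∣ a ∨ Q ∣ b) → Q ∣ f.den 0 * f.den 1 * jac f

end Pool.Agent.Lib.MP_16285c_agZ
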