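import Pool.Agent.Lib.MP_16285c_agZ.Spec2
import Pool.Agent.Lib.MP_16285c_agZ.DEG4a.Spec

/-!
# `StmtDegP` from the statements of the package DEG4a
-/

set_option autoImplicit false

namespace Pool.Agent.Lib.MP_16285c_agZ

open Pool.Agent.Lib.MP_16285c_ag

theorem stmtDegP (h1 : StmtResF) (h2 : StmtDeg) (h3 : StmtTot) : StmtDegP := by
  intro K _ _ f ρ hf hT P hP _ hpres L _ _ _ _ _
  obtain ⟨ρb, hρ⟩ := h1 K ρ P hP hpres L
  refine ⟨ρb, fun H => hρ _ _ ?_, (h2 K ρ P hP hT L ρb hρ).2.1,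
    fun he => h3 K f ρ hf hT P hP hpres L ρb hρ he⟩
  exact ⟨H, 1, fun h => hP.not_isUnit (isUnit_of_dvd_one h), by simp, by simp⟩

end Pool.Agent.Lib.MP_16285c_agZ
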